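import Pool.Agent.Helper77.Distal.Core

/-! A group that commutes with a transitive group acts distally; induction along the upper central
series. -/

namespace Helper77.Distal

open Topology Filter Set

universe u

section commuting

variable {X : Type*} [TopologicalSpace X] [CompactSpace X] [T2Space X]
variable {Γ : Type*} [Group Γ] [MulAction Γ X] [ContinuousConstSMul Γ X]
variable {D : Type*} [Group D] [MulAction D X] [ContinuousConstSMul D X]

theorem central (hcomm : ∀ (d : D) (g : Γ) (y : X), d • g • y = g • d • y)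
    (htr : ∀ x y : X, ∃ g : Γ, g • x = y) {x : X} (hinf : (MulAction.orbit D x).Infinite) :
    ∃ s : ℕ → X, Function.Injective s ∧ Tendsto s atTop (𝓝 x) := by
  have hE : ∀ p ∈ E X D, ∀ (g : Γ) (y : X), p (g • y) = g • p y := by
    intro p hp g y
    refine E_induction (T := D) (P := fun p => p (g • y) = g • p y) ?_ ?_ hp
    · exact isClosed_eq (continuous_apply _) ((continuous_const_smul g).comp (continuous_apply _))
    · intro d
      exact hcomm d g y
  have hid : ∀ u ∈ E X D, u ∘ u = u → u = id := by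
    intro u hu huu
    funext y
    obtain ⟨g, hg⟩ := htr (u x) y
    have h1 : u (g • x) = y := by rw [hE u hu, hg]
    have h2 : u (u (g • x)) = u (g • x) := congrFun huu (g • x)
    rw [h1] at h2
    exact h2
  have hinv : ∀ p ∈ E X D, ∃ q ∈ E X D, ∀ y, q (p y) = y := by
    intro p hp
    obtain ⟨u, ⟨q, hq, rfl⟩, huu⟩ := exists_idem ((fun r => r ∘ p) '' E X D)
      ⟨_, ⟨p, hp, rfl⟩⟩ (isCompact_E.image (continuous_comp_right p)) (by
        rintro _ ⟨a, ha, rfl⟩ _ ⟨b, hb, rfl⟩
        exact ⟨a ∘ p ∘ b, comp_mem ha (comp_mem hp hb), rfl⟩)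
    have := hid _ (comp_mem hq hp) huu
    exact ⟨q, hq, fun y => congrFun this y⟩
  have hdist : ∀ y, Prox D x y → y = x := by
    rintro y ⟨z, hz⟩
    have h : (fun p : X → X => (p x, p y)) '' E X D =
        closure (range fun d : D => (d • x, d • y)) := by
      rw [E, image_closure_of_isCompact isClosed_closure.isCompact
        ((continuous_apply x).prodMk (continuous_apply y)).continuousOn, ← range_comp]
      rfl
    rw [← h] at hz
    obtain ⟨p, hp, hpz⟩ := hz
    obtain ⟨q, hq, hqp⟩ := hinv p hp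
    have h1 : p x = z := congrArg Prod.fst hpz
    have h2 : p y = z := congrArg Prod.snd hpz
    rw [← hqp y, h2, ← h1, hqp]
  have hrec : x ∈ closure (MulAction.orbit D x \ {x}) := by
    obtain ⟨z, -, hz⟩ := hinf.exists_accPt_of_subset_isCompact isCompact_univ (subset_univ _)
    have hzc : z ∈ closure (MulAction.orbit D x) := mem_closure_iff_clusterPt.mpr hz.clusterPt
    obtain ⟨p, hp, hpz⟩ := exists_of_mem_closure hzc
    obtain ⟨q, hq, hqp⟩ := hinv p hp
    have hqz : q z = x := by rw [← hpz]; exact hqp x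
    rw [mem_closure_iff]
    intro O hO hxO
    -- an element of `D` close to `q` at `z`
    have h1 : {r : X → X | r z ∈ O} ∈ 𝓝 q :=
      (continuous_apply z).continuousAt.preimage_mem_nhds (by
        show O ∈ 𝓝 (q z)
        rw [hqz]; exact hO.mem_nhds hxO)
    obtain ⟨_, hrO, ⟨d, rfl⟩⟩ := mem_closure_iff_nhds.mp hq _ h1
    have hdz : d • z ∈ O := hrO
    have h2 : (fun y : X => d • y) ⁻¹' O ∈ 𝓝 z :=
      (continuous_const_smul d).continuousAt.preimage_mem_nhds (hO.mem_nhds hdz)
    rw [accPt_iff_nhds] at hz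
    obtain ⟨y1, ⟨hy1, ho1⟩, hne1⟩ := hz _ h2
    obtain ⟨y2, ⟨hy2, ho2⟩, hne2⟩ := hz ((fun y : X => d • y) ⁻¹' O ∩ {y1}ᶜ)
      (inter_mem h2 (isOpen_compl_singleton.mem_nhds (Ne.symm hne1)))
    have hne : y2 ≠ y1 := hy2.2
    have hor : ∀ y ∈ MulAction.orbit D x, d • y ∈ MulAction.orbit D x := by
      rintro _ ⟨e, rfl⟩
      exact ⟨d * e, mul_smul d e x⟩
    by_cases hx1 : d • y1 = x
    · refine ⟨d • y2, hy2.1, hor _ ho2, fun h => hne ?_⟩
      have : d • y2 = d • y1 := by rw [hx1]; exact h
      exact smul_left_cancel d this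
    · exact ⟨d • y1, hy1, hor _ ho1, hx1⟩
  obtain ⟨s, hs1, -, hs3⟩ := main (M := D) hrec (U := fun _ => univ) (fun _ => univ_mem)
    (fun y _ _ hp => hdist y hp)
  exact ⟨s, hs1, hs3⟩

end commuting

/-- Lifting a convergent sequence through an open map with a finite fibre over the limit. -/
theorem lift_finite {X Y : Type*} [TopologicalSpace X] [CompactSpace X] [T2Space X]
    [TopologicalSpace Y] [T2Space Y] {π : X → Y} (hπ : Continuous π) (hopen : IsOpenMap π)
    (hsurj : Function.Surjective π) {s' : ℕ → Y} {a' : Y} (hs : Function.Injective s')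
    (hlim : Tendsto s' atTop (𝓝 a')) (hfin : (π ⁻¹' {a'}).Finite) :
    ∃ (s : ℕ → X) (a : X), Function.Injective s ∧ Tendsto s atTop (𝓝 a) := by
  obtain ⟨x, hx⟩ := hsurj a'
  have hcl : (π ⁻¹' {a'} \ {x})ᶜ ∈ 𝓝 x := by
    refine (hfin.subset sdiff_subset).isClosed.isOpen_compl.mem_nhds ?_
    intro h
    exact h.2 rfl
  obtain ⟨V, hV, hVc, hVs⟩ := exists_mem_nhds_isClosed_subset hcl
  have hVi : π '' V ∈ 𝓝 a' := by
    rw [← hx]
    exact hopen.image_mem_nhds hV
  have hch : ∀ n, ∃ y, π y = s' n ∧ (s' n ∈ π '' V → y ∈ V) := by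
    intro n
    by_cases h : s' n ∈ π '' V
    · obtain ⟨y, hy, hyn⟩ := h
      exact ⟨y, hyn, fun _ => hy⟩
    · obtain ⟨y, hy⟩ := hsurj (s' n)
      exact ⟨y, hy, fun h' => absurd h' h⟩
  choose s hs1 hs2 using hch
  refine ⟨s, x, fun m n hmn => hs (by rw [← hs1, ← hs1, hmn]), ?_⟩
  rw [tendsto_iff_ultrafilter]
  intro g hg
  obtain ⟨y, -, hy⟩ := isCompact_univ.ultrafilter_le_nhds (g.map s) (by simp)
  have hty : Tendsto s (g : Filter ℕ) (𝓝 y) := hy
  have h1 : Tendsto (fun n => π (s n)) (g : Filter ℕ) (𝓝 (π y)) := (hπ.tendsto y).comp hty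
  have h2 : Tendsto (fun n => π (s n)) (g : Filter ℕ) (𝓝 a') := by
    simp only [hs1]
    exact hlim.mono_left hg
  have h3 : π y = a' := tendsto_nhds_unique h1 h2
  have h4 : y ∈ V := by
    refine hVc.mem_of_tendsto hty ?_
    have : ∀ᶠ n in atTop, s' n ∈ π '' V := hlim hVi
    exact (this.filter_mono hg).mono fun n hn => hs2 n hn
  have h5 : y = x := by
    by_contra hne
    exact hVs h4 ⟨h3, hne⟩
  rwa [h5] at hty

section tower

variable {Γ : Type*} [Group Γ]

theorem comm_of_triv {X : Type*} [MulAction Γ X] {m : ℕ}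
    (htriv : ∀ g ∈ Subgroup.upperCentralSeries Γ m, ∀ y : X, g • y = y) {d : Γ}
    (hd : d ∈ Subgroup.upperCentralSeries Γ (m + 1)) (g : Γ) (y : X) :
    d • g • y = g • d • y := by
  have h1 := Subgroup.mem_upperCentralSeries_succ_iff.mp hd g
  rw [commutatorElement_def] at h1
  have h2 : d * g = d * g * d⁻¹ * g⁻¹ * (g * d) := by group
  rw [smul_smul, h2, mul_smul, htriv _ h1, mul_smul]

theorem tower (k : ℕ) : ∀ (m : ℕ) (X : Type u) [TopologicalSpace X] [CompactSpace X] [T2Space X]
    [MulAction Γ X] [ContinuousConstSMul Γ X] (_htr : ∀ x y : X, ∃ g : Γ, g • x = y)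
    (_htriv : ∀ g ∈ Subgroup.upperCentralSeries Γ m, ∀ y : X, g • y = y) (x : X)
    (_hinf : {y | ∃ g ∈ Subgroup.upperCentralSeries Γ (m + k), g • x = y}.Infinite),
    ∃ (s : ℕ → X) (a : X), Function.Injective s ∧ Tendsto s atTop (𝓝 a) := by
  induction k with
  | zero =>
    intro m X _ _ _ _ _ htr htriv x hinf
    exfalso
    refine hinf ((finite_singleton x).subset ?_)
    rintro y ⟨g, hg, rfl⟩
    exact htriv g hg x
  | succ k ih =>
    intro m X _ _ _ _ _ htr htriv x hinf
    set D := Subgroup.upperCentralSeries Γ (m + 1) with hD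
    have hcomm : ∀ (d : D) (g : Γ) (y : X), d • g • y = g • d • y := fun d g y =>
      comm_of_triv htriv d.2 g y
    have : ContinuousConstSMul D X := ⟨fun a => continuous_const_smul (a : Γ)⟩
    by_cases hfin : (MulAction.orbit D x).Finite
    swap
    · obtain ⟨s, hs1, hs2⟩ := central (Γ := Γ) (D := D) hcomm htr (x := x) hfin
      exact ⟨s, x, hs1, hs2⟩
    -- the quotient by the finite orbits of `D`
    obtain ⟨S, -, hS⟩ := exists_subset_bijOn (univ : Set D) (fun d : D => d • x)
    rw [image_univ] at hS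
    have hSfin : S.Finite := hS.finite_iff_finite.mpr hfin
    have hSorb : ∀ (y : X) (d : D), ∃ d' ∈ S, d • y = d' • y := by
      intro y d
      obtain ⟨g, rfl⟩ := htr x y
      obtain ⟨d', hd', hdd⟩ := hS.surjOn (mem_range_self d)
      refine ⟨d', hd', ?_⟩
      have h3 : d' • x = d • x := hdd
      rw [hcomm, hcomm, h3]
    let r := MulAction.orbitRel D X
    let Y := Quotient r
    let π : X → Y := Quotient.mk r
    have hq : IsOpenQuotientMap π := MulAction.isOpenQuotientMap_quotientMk
    have hrel : ∀ a b : X, π a = π b ↔ ∃ d ∈ S, a = d • b := by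
      intro a b
      have h1 : π a = π b ↔ a ∈ MulAction.orbit D b := by
        rw [← MulAction.orbitRel_apply]
        exact Quotient.eq
      rw [h1]
      constructor
      · rintro ⟨d, rfl⟩
        exact hSorb b d
      · rintro ⟨d, -, rfl⟩
        exact ⟨d, rfl⟩
    have hT2 : T2Space Y := by
      rw [t2Space_iff_of_isOpenQuotientMap hq]
      have : {q : X × X | π q.1 = π q.2} = ⋃ d ∈ S, {q : X × X | q.1 = d • q.2} := by
        ext q
        simp only [hrel, Set.mem_ofPred_eq, mem_iUnion, exists_prop]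
      rw [this]
      refine hSfin.isClosed_biUnion fun d _ => ?_
      exact isClosed_eq continuous_fst ((continuous_const_smul d).comp continuous_snd)
    have hwd : ∀ (g : Γ) (a b : X), r a b → r (g • a) (g • b) := by
      intro g a b hab
      obtain ⟨d, rfl⟩ := MulAction.orbitRel_apply.mp hab
      refine MulAction.orbitRel_apply.mpr ⟨d, ?_⟩
      exact hcomm d g b
    let act : MulAction Γ Y :=
      { smul := fun g => Quotient.map (fun y => g • y) (hwd g)
        one_smul := by
          rintro ⟨y⟩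
          exact congrArg π (one_smul Γ y)
        mul_smul := by
          rintro g h ⟨y⟩
          exact congrArg π (mul_smul g h y) }
    have hact : ∀ (g : Γ) (y : X), g • π y = π (g • y) := fun g y => rfl
    have hcs : ContinuousConstSMul Γ Y := ⟨fun g => by
      refine hq.isQuotientMap.continuous_iff.mpr ?_
      exact hq.continuous.comp (continuous_const_smul g)⟩
    have hfib : ∀ y : Y, (π ⁻¹' {y}).Finite := by
      intro y
      obtain ⟨b, rfl⟩ := hq.surjective y
      refine (hSfin.image fun d => d • b).subset ?_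
      intro a ha
      obtain ⟨d, hd, rfl⟩ := (hrel a b).mp ha
      exact ⟨d, hd, rfl⟩
    obtain ⟨s', a', hs', hlim⟩ := ih (m + 1) Y (by
        intro a b
        obtain ⟨a, rfl⟩ := hq.surjective a
        obtain ⟨b, rfl⟩ := hq.surjective b
        obtain ⟨g, rfl⟩ := htr a b
        exact ⟨g, rfl⟩) (by
        intro d hd y
        obtain ⟨b, rfl⟩ := hq.surjective y
        rw [hact]
        have : π (d • b) = π b ↔ _ := hrel _ _
        obtain ⟨d', hd', h⟩ := hSorb b ⟨d, hd⟩
        exact this.mpr ⟨d', hd', h⟩) (π x) (by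
        intro hf
        have h5 := hf.preimage' (f := π) (fun b _ => hfib b)
        refine hinf (h5.subset ?_)
        rintro _ ⟨g, hg, rfl⟩
        refine ⟨g, ?_, rfl⟩
        rwa [show m + 1 + k = m + (k + 1) by ring])
    exact lift_finite hq.continuous hq.isOpenMap hq.surjective hs' hlim (hfib a')

/-- The main theorem on the upper central series. -/
theorem series {X : Type*} [TopologicalSpace X] [CompactSpace X] [T2Space X]
    [MulAction Γ X] [ContinuousConstSMul Γ X] (htr : ∀ x y : X, ∃ g : Γ, g • x = y) (n : ℕ)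
    (x : X) (hinf : (MulAction.orbit (Subgroup.upperCentralSeries Γ n) x).Infinite) :
    ∃ (s : ℕ → X) (a : X), Function.Injective s ∧ Tendsto s atTop (𝓝 a) := by
  refine tower n 0 X htr ?_ x ?_
  · intro g hg y
    rw [Subgroup.upperCentralSeries_zero, Subgroup.mem_bot] at hg
    rw [hg, one_smul]
  · refine hinf.mono ?_
    rintro _ ⟨g, rfl⟩
    exact ⟨g, by rw [zero_add]; exact g.2, rfl⟩

end tower

end Helper77.Distal
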