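import Mathlib

/-! Closing a countable set under countably many finitary operations. -/

namespace Helper77.Distal

open Set

/-- One step of the closing process. -/
def step {Ω ι : Type*} (op : ι → List Ω → Ω) (B : Set Ω) : Set Ω :=
  B ∪ range fun p : ι × List B => op p.1 (p.2.map Subtype.val)

theorem exists_closed {Ω ι : Type*} [Countable ι] (op : ι → List Ω → Ω) (A : Set Ω)
    (hA : A.Countable) :
    ∃ B : Set Ω, A ⊆ B ∧ B.Countable ∧ ∀ i (l : List Ω), (∀ a ∈ l, a ∈ B) → op i l ∈ B := by
  set S : ℕ → Set Ω := fun k => (step op)^[k] A with hS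
  have hsucc : ∀ k, S (k + 1) = step op (S k) := fun k => Function.iterate_succ_apply' _ _ _
  have hmono1 : ∀ k, S k ⊆ S (k + 1) := fun k => by
    rw [hsucc]; exact subset_union_left
  have hmono : Monotone S := monotone_nat_of_le_succ hmono1
  have hcount : ∀ k, (S k).Countable := by
    intro k
    induction k with
    | zero => exact hA
    | succ k ih =>
      rw [hsucc]
      have : Countable (S k) := ih.to_subtype
      exact ih.union (countable_range _)
  refine ⟨⋃ k, S k, subset_iUnion S 0, countable_iUnion hcount, fun i l hl => ?_⟩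
  have h1 : ∃ k, ∀ a ∈ l, a ∈ S k := by
    induction l with
    | nil => exact ⟨0, fun a ha => absurd ha (List.not_mem_nil)⟩
    | cons b l ih =>
      obtain ⟨k, hk⟩ := ih fun a ha => hl a (List.mem_cons_of_mem _ ha)
      obtain ⟨k', hk'⟩ := mem_iUnion.mp (hl b List.mem_cons_self)
      refine ⟨max k k', fun a ha => ?_⟩
      rcases List.mem_cons.mp ha with rfl | ha
      · exact hmono (le_max_right _ _) hk'
      · exact hmono (le_max_left _ _) (hk a ha)
  obtain ⟨k, hk⟩ := h1
  refine mem_iUnion.mpr ⟨k + 1, ?_⟩
  rw [hsucc]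
  refine Or.inr ⟨(i, l.attachWith (· ∈ S k) hk), ?_⟩
  simp

end Helper77.Distal
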