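import Pool.Agent.Helper77.Distal.Tower
import Pool.Agent.Helper77.Distal.Close

/-! The main theorem: first for countable monoids, then in general. -/

namespace Helper77.Distal

open Topology Filter Set

variable {X : Type*} [TopologicalSpace X] [CompactSpace X] [T2Space X]

theorem core {T : Type*} [Monoid T] [MulAction T X] [ContinuousConstSMul T X] [Countable T]
    {x : X} {ι : Type*} [Countable ι] (g : ι → C(X, ℝ))
    (hF : Inv T (range g)) (hd : RelDistal T (range g) x)
    (hni : ∀ (I : Finset ι) (n : ℕ), ∃ t : T, (∀ i ∈ I, |g i (t • x) - g i x| < 1 / (n + 1)) ∧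
      ∃ i, g i (t • x) ≠ g i x) :
    ∃ s : ℕ → X, Function.Injective s ∧ (∀ n, s n ∈ closure (MulAction.orbit T x)) ∧
      Tendsto s atTop (𝓝 x) := by
  let _ : MetricSpace (ι → ℝ) := TopologicalSpace.metrizableSpaceMetric (ι → ℝ)
  set G : X → (ι → ℝ) := fun y i => g i y with hG
  have hGc : Continuous G := continuous_pi fun i => (g i).continuous
  set φ : X → ℝ := fun y => dist (G y) (G x) with hφ
  have hex : ∀ ε : ℝ, 0 < ε → ∃ y, y ∈ closure (MulAction.orbit T x) ∧ 0 < φ y ∧ φ y < ε := by
    intro ε hε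
    obtain ⟨I, u, hu, hsub⟩ := isOpen_pi_iff.mp (Metric.isOpen_ball (x := G x) (ε := ε)) (G x)
      (Metric.mem_ball_self hε)
    have hN : ∀ᶠ n : ℕ in atTop, ∀ i ∈ I, Metric.ball (G x i) (1 / ((n : ℝ) + 1)) ⊆ u i := by
      rw [Filter.eventually_all_finset]
      intro i hi
      obtain ⟨δ, hδ, hball⟩ := Metric.isOpen_iff.mp (hu i hi).1 _ (hu i hi).2
      have h1 : ∀ᶠ n : ℕ in atTop, 1 / ((n : ℝ) + 1) < δ :=
        (tendsto_one_div_add_atTop_nhds_zero_nat (𝕜 := ℝ)).eventually (gt_mem_nhds hδ)
      filter_upwards [h1] with n hn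
      exact (Metric.ball_subset_ball hn.le).trans hball
    obtain ⟨N, hN⟩ := hN.exists
    obtain ⟨t, ht1, i, hti⟩ := hni I N
    refine ⟨t • x, subset_closure ⟨t, rfl⟩, ?_, ?_⟩
    · rw [hφ]
      refine dist_pos.mpr fun h => hti ?_
      exact congrFun h i
    · have : G (t • x) ∈ Metric.ball (G x) ε := by
        apply hsub
        intro i hi
        refine hN i hi ?_
        rw [Metric.mem_ball, Real.dist_eq]
        exact ht1 i hi
      exact this
  have hneX : Nonempty X := ⟨x⟩
  choose! W hW1 hW2 hW3 using hex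
  -- a sequence with strictly decreasing distances
  let st : ℕ → {y : X // y ∈ closure (MulAction.orbit T x) ∧ 0 < φ y} := fun n =>
    Nat.rec ⟨W 1, hW1 1 one_pos, hW2 1 one_pos⟩ (fun n a =>
      ⟨W (min (φ a.1) (1 / ((n : ℝ) + 1))),
        hW1 _ (lt_min a.2.2 Nat.one_div_pos_of_nat), hW2 _ (lt_min a.2.2 Nat.one_div_pos_of_nat)⟩) n
  have hst : ∀ n, (st (n + 1)).1 = W (min (φ (st n).1) (1 / ((n : ℝ) + 1))) := fun n => rfl
  have hlt : ∀ n, φ (st (n + 1)).1 < min (φ (st n).1) (1 / ((n : ℝ) + 1)) := fun n => by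
    rw [hst]
    exact hW3 _ (lt_min (st n).2.2 Nat.one_div_pos_of_nat)
  have hanti : StrictAnti fun n => φ (st n).1 :=
    strictAnti_nat_of_succ_lt fun n => (hlt n).trans_le (min_le_left _ _)
  have hlim0 : Tendsto (fun n => φ (st (n + 1)).1) atTop (𝓝 0) := by
    refine squeeze_zero (fun n => (st (n + 1)).2.2.le)
      (fun n => ((hlt n).trans_le (min_le_right _ _)).le) ?_
    exact tendsto_one_div_add_atTop_nhds_zero_nat (𝕜 := ℝ)
  have hlim1 : Tendsto (fun n => φ (st n).1) atTop (𝓝 0) :=
    (tendsto_add_atTop_iff_nat (f := fun n => φ (st n).1) 1).mp hlim0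
  have hlim2 : Tendsto (fun n => G (st n).1) atTop (𝓝 (G x)) :=
    tendsto_iff_dist_tendsto_zero.mpr hlim1
  obtain ⟨v, hv1, hv2, hv3⟩ := lift_all hF hd (w0 := fun n => (st n).1)
    (fun n => (st n).2.1) (by
      rintro _ ⟨i, rfl⟩
      exact (tendsto_pi_nhds.mp hlim2) i)
  refine ⟨v, ?_, hv1, hv3⟩
  have hGv : ∀ n, G (v n) = G (st n).1 := fun n => funext fun i => hv2 n (g i) ⟨i, rfl⟩
  intro m n hmn
  apply hanti.injective
  show dist (G (st m).1) (G x) = dist (G (st n).1) (G x)
  rw [← hGv m, ← hGv n, hmn]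

/-- **Main theorem.** -/
theorem main {M : Type*} [Monoid M] [MulAction M X] [ContinuousConstSMul M X]
    {x : X} (hx : x ∈ closure (MulAction.orbit M x \ {x}))
    {U : ℕ → Set X} (hU : ∀ n, U n ∈ 𝓝 x)
    (hd : ∀ y ∈ closure (MulAction.orbit M x), (∀ n, y ∈ U n) →
      (∃ z : X, (z, z) ∈ closure (range fun a : M => (a • x, a • y))) → y = x) :
    ∃ s : ℕ → X, Function.Injective s ∧ (∀ n, s n ∈ closure (MulAction.orbit M x)) ∧
      Tendsto s atTop (𝓝 x) := by
  classical
  -- functions that detect the intersection of the sets `U n`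
  have hh : ∀ n, ∃ h : C(X, ℝ), h x = 0 ∧ (∀ y, h y = 0 → y ∈ U n) := by
    intro n
    obtain ⟨V, hVB, hV, hxV⟩ := mem_nhds_iff.mp (hU n)
    obtain ⟨h, hh0, hh1, -⟩ := exists_continuous_zero_one_of_isClosed
      (isClosed_singleton (x := x)) hV.isClosed_compl (by
        rw [disjoint_left]
        rintro y rfl hy
        exact hy hxV)
    refine ⟨h, hh0 rfl, fun y hy => ?_⟩
    by_contra hcon
    have : h y = 1 := hh1 (fun hyV => hcon (hVB hyV))
    rw [hy] at this
    exact zero_ne_one this
  choose h hhx hhB using hh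
  -- the witnesses for non isolation
  have hw : ∀ (L : List C(X, ℝ)) (n : ℕ), ∃ (a : M) (k : C(X, ℝ)),
      (∀ k' ∈ L, |k' (a • x) - k' x| < 1 / ((n : ℝ) + 1)) ∧ k (a • x) ≠ k x := by
    intro L n
    have hO : IsOpen {y : X | ∀ k' ∈ L, |k' y - k' x| < 1 / ((n : ℝ) + 1)} := by
      have : {y : X | ∀ k' ∈ L, |k' y - k' x| < 1 / ((n : ℝ) + 1)} =
          ⋂ k' ∈ L.toFinset, {y : X | |k' y - k' x| < 1 / ((n : ℝ) + 1)} := by
        ext y; simp
      rw [this]
      refine isOpen_biInter_finset fun k' _ => ?_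
      exact isOpen_lt ((k'.continuous.sub continuous_const).abs) continuous_const
    obtain ⟨y, hy, ⟨a, rfl⟩, hya⟩ := mem_closure_iff.mp hx _ hO (by
      intro k' _
      simp only [sub_self, abs_zero]
      exact Nat.one_div_pos_of_nat)
    obtain ⟨k, hk0, hk1, -⟩ := exists_continuous_zero_one_of_isClosed
      (isClosed_singleton (x := x)) (isClosed_singleton (x := a • x)) (by
        rw [disjoint_left]
        intro z hz hz'
        have h1 : z = x := hz
        have h2 : z = a • x := hz'
        exact hya (by rw [mem_singleton_iff]; exact (h2.symm.trans h1)))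
    refine ⟨a, k, hy, ?_⟩
    rw [hk1 rfl, show k x = 0 from hk0 rfl]
    exact one_ne_zero
  choose γ σ hγ hσ using hw
  -- the closing off
  let fs : List (M ⊕ C(X, ℝ)) → List C(X, ℝ) := fun l => l.filterMap Sum.getRight?
  let op : Option (Bool × ℕ) → List (M ⊕ C(X, ℝ)) → M ⊕ C(X, ℝ) := fun i l =>
    match i with
    | none =>
      match l with
      | [Sum.inl a, Sum.inl b] => Sum.inl (a * b)
      | [Sum.inl a, Sum.inr k] => Sum.inr (tr a k)
      | _ => Sum.inl 1
    | some (true, n) => Sum.inl (γ (fs l) n)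
    | some (false, n) => Sum.inr (σ (fs l) n)
  obtain ⟨C, hAC, hCc, hC⟩ := exists_closed op (range fun n => Sum.inr (h n)) (countable_range _)
  let S : Submonoid M :=
    { carrier := {a | Sum.inl a ∈ C}
      mul_mem' := by
        intro a b ha hb
        have := hC none [Sum.inl a, Sum.inl b] (by
          intro c hc
          rcases List.mem_cons.mp hc with rfl | hc
          · exact ha
          · rw [List.mem_singleton] at hc
            rw [hc]; exact hb)
        exact this
      one_mem' := by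
        have := hC none [] (by simp)
        exact this }
  let F : Set C(X, ℝ) := {k | Sum.inr k ∈ C}
  have hSc : Countable S := by
    have : (Sum.inl ⁻¹' C : Set M).Countable := hCc.preimage Sum.inl_injective
    exact this.to_subtype
  have hFc : Countable F := by
    have : (Sum.inr ⁻¹' C : Set C(X, ℝ)).Countable := hCc.preimage Sum.inr_injective
    exact this.to_subtype
  have : ContinuousConstSMul S X := ⟨fun a => continuous_const_smul (a : M)⟩
  have horb : MulAction.orbit S x ⊆ MulAction.orbit M x := by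
    rintro _ ⟨a, rfl⟩
    exact ⟨(a : M), rfl⟩
  have hrange : range (Subtype.val : F → C(X, ℝ)) = F := Subtype.range_coe
  obtain ⟨s, hs1, hs2, hs3⟩ := core (T := S) (x := x)
    (ι := F) Subtype.val (by
      rw [hrange]
      rintro k hk ⟨a, ha⟩
      have := hC none [Sum.inl a, Sum.inr k] (by
          intro c hc
          rcases List.mem_cons.mp hc with rfl | hc
          · exact ha
          · rw [List.mem_singleton] at hc
            rw [hc]; exact hk)
      exact this) (by
      rw [hrange]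
      rintro y hy hyx ⟨z, hz⟩
      have h1 : ∀ n, y ∈ U n := fun n => hhB n y (by
        rw [hyx (h n) (hAC ⟨n, rfl⟩), hhx])
      refine hd y (closure_mono horb hy) h1 ⟨z, closure_mono ?_ hz⟩
      rintro _ ⟨a, rfl⟩
      exact ⟨(a : M), rfl⟩) (by
      intro I n
      let l : List (M ⊕ C(X, ℝ)) := I.toList.map fun k => Sum.inr k.1
      have hl : ∀ c ∈ l, c ∈ C := by
        intro c hc
        obtain ⟨k, -, rfl⟩ := List.mem_map.mp hc
        exact k.2
      have hfs : ∀ i ∈ I, i.1 ∈ fs l := by
        intro i hi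
        refine List.mem_filterMap.mpr ⟨Sum.inr i.1, ?_, rfl⟩
        exact List.mem_map.mpr ⟨i, by simpa using hi, rfl⟩
      refine ⟨⟨γ (fs l) n, hC (some (true, n)) l hl⟩, ?_, ⟨σ (fs l) n, hC (some (false, n)) l hl⟩,
        hσ (fs l) n⟩
      intro i hi
      exact hγ (fs l) n i.1 (hfs i hi))
  exact ⟨s, hs1, fun n => closure_mono horb (hs2 n), hs3⟩

end Helper77.Distal
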