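import Mathlib

/-! The enveloping semigroup of a monoid action on a compact Hausdorff space, and the
basic fact about (relatively) distal points. -/

namespace Helper77.Distal

open Topology Filter Set

section comp

variable {X : Type*}

/-- Composition makes the self maps of a set a semigroup. -/
@[reducible] def compSemigroup (X : Type*) : Semigroup (X → X) where
  mul f g := f ∘ g
  mul_assoc _ _ _ := rfl

theorem exists_idem [TopologicalSpace X] [T2Space X] (S : Set (X → X)) (hne : S.Nonempty)
    (hc : IsCompact S) (hm : ∀ p ∈ S, ∀ q ∈ S, p ∘ q ∈ S) : ∃ u ∈ S, u ∘ u = u := by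
  let _ := compSemigroup X
  refine exists_idempotent_in_compact_subsemigroup (M := X → X) (fun r => ?_) S hne hc hm
  exact continuous_pi fun x => continuous_apply (r x)

end comp

variable {X : Type*} [TopologicalSpace X] [CompactSpace X] [T2Space X]
variable {T : Type*} [Monoid T] [MulAction T X] [ContinuousConstSMul T X]

variable (X T) in
/-- The enveloping semigroup. -/
def E : Set (X → X) := closure (range fun (t : T) (y : X) => t • y)

theorem isCompact_E : IsCompact (E X T) := isClosed_closure.isCompact

theorem smul_mem_E (t : T) : (fun y : X => t • y) ∈ E X T := subset_closure ⟨t, rfl⟩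

/-- A closed property of self maps that holds for all elements of the monoid holds on `E`. -/
theorem E_induction {P : (X → X) → Prop} (hcl : IsClosed {p | P p})
    (h : ∀ t : T, P (fun y : X => t • y)) {p : X → X} (hp : p ∈ E X T) : P p := by
  have : E X T ⊆ {p | P p} := closure_minimal (by rintro _ ⟨t, rfl⟩; exact h t) hcl
  exact this hp

theorem continuous_comp_right (q : X → X) : Continuous fun p : X → X => p ∘ q :=
  continuous_pi fun x => continuous_apply (q x)

theorem continuous_smul_comp (t : T) : Continuous fun p : X → X => fun y => t • p y :=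
  continuous_pi fun x => (continuous_const_smul t).comp (continuous_apply x)

theorem smul_comp_mem (t : T) {q : X → X} (hq : q ∈ E X T) : (fun y => t • q y) ∈ E X T := by
  refine E_induction (P := fun q => (fun y => t • q y) ∈ E X T) ?_ ?_ hq
  · exact isClosed_closure.preimage (continuous_smul_comp t)
  · intro s
    have : (fun y : X => t • s • y) = fun y => (t * s) • y := by
      funext y; rw [mul_smul]
    simp only [this]
    exact smul_mem_E _

theorem comp_mem {p q : X → X} (hp : p ∈ E X T) (hq : q ∈ E X T) : p ∘ q ∈ E X T := by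
  refine E_induction (P := fun p => p ∘ q ∈ E X T) ?_ ?_ hp
  · exact isClosed_closure.preimage (continuous_comp_right q)
  · intro t
    exact smul_comp_mem t hq

theorem apply_mem_closure {p : X → X} (hp : p ∈ E X T) (x : X) :
    p x ∈ closure (MulAction.orbit T x) := by
  refine E_induction (P := fun p => p x ∈ closure (MulAction.orbit T x)) ?_ ?_ hp
  · exact isClosed_closure.preimage (continuous_apply x)
  · intro t
    exact subset_closure ⟨t, rfl⟩

theorem exists_of_mem_closure {x y : X} (hy : y ∈ closure (MulAction.orbit T x)) :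
    ∃ p ∈ E X T, p x = y := by
  have h : (fun p : X → X => p x) '' E X T = closure (MulAction.orbit T x) := by
    rw [E, image_closure_of_isCompact isClosed_closure.isCompact
      (continuous_apply x).continuousOn, ← range_comp]
    rfl
  rw [← h] at hy
  exact hy

/-- `x` and `y` are proximal for the action of `T`. -/
def Prox (T : Type*) [Monoid T] [MulAction T X] (x y : X) : Prop :=
  ∃ z : X, (z, z) ∈ closure (range fun t : T => (t • x, t • y))

theorem prox_of_idem {u : X → X} (hu : u ∈ E X T) (huu : u ∘ u = u) (x : X) :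
    Prox T x (u x) := by
  refine ⟨u x, ?_⟩
  have h1 : (u x, u (u x)) ∈ closure (range fun t : T => (t • x, t • (u x))) := by
    refine E_induction (P := fun p => (p x, p (u x)) ∈
      closure (range fun t : T => (t • x, t • (u x)))) ?_ ?_ hu
    · exact isClosed_closure.preimage
        ((continuous_apply x).prodMk (continuous_apply (u x)))
    · intro t
      exact subset_closure ⟨t, rfl⟩
  have h2 : u (u x) = u x := congrFun huu x
  rwa [h2] at h1

/-- The translate `y ↦ g (t • y)`. -/
def tr (t : T) (g : C(X, ℝ)) : C(X, ℝ) := g.comp ⟨fun y => t • y, continuous_const_smul t⟩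

theorem tr_apply (t : T) (g : C(X, ℝ)) (y : X) : tr t g y = g (t • y) := rfl

theorem tr_tr (s t : T) (g : C(X, ℝ)) : tr s (tr t g) = tr (t * s) g := by
  ext y
  simp only [tr_apply, mul_smul]

/-- Invariant sets of functions. -/
def Inv (T : Type*) [Monoid T] [MulAction T X] [ContinuousConstSMul T X]
    (F : Set C(X, ℝ)) : Prop :=
  ∀ g ∈ F, ∀ t : T, tr t g ∈ F

/-- No function of `F` separates `a` from `b`. -/
def Eqv (F : Set C(X, ℝ)) (a b : X) : Prop := ∀ g ∈ F, g a = g b

theorem Eqv.app {F : Set C(X, ℝ)} (hF : Inv T F) {a b : X} (h : Eqv F a b) {p : X → X}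
    (hp : p ∈ E X T) : Eqv F (p a) (p b) := by
  intro g hg
  refine E_induction (T := T) (P := fun p => g (p a) = g (p b)) ?_ ?_ hp
  · exact isClosed_eq (g.continuous.comp (continuous_apply _))
      (g.continuous.comp (continuous_apply _))
  · intro t
    exact h _ (hF g hg t)

/-- No other point of the orbit closure is proximal to `x` and has the same values as `x` for all
functions in `F`. -/
def RelDistal (T : Type*) [Monoid T] [MulAction T X] (F : Set C(X, ℝ)) (x : X) : Prop :=
  ∀ y ∈ closure (MulAction.orbit T x), Eqv F y x → Prox T x y → y = x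

theorem RelDistal.mono {F F' : Set C(X, ℝ)} {x : X} (h : RelDistal T F x) (hs : F ⊆ F') :
    RelDistal T F' x := fun y hy hyx hp => h y hy (fun g hg => hyx g (hs hg)) hp

theorem key {F : Set C(X, ℝ)} (hF : Inv T F)
    {x : X} (hd : RelDistal T F x) {p : X → X} (hp : p ∈ E X T) (hpx : Eqv F (p x) x) :
    ∃ q ∈ E X T, q (p x) = x ∧ p (q x) = x := by
  -- the compact semigroup of all elements that fix the class of `x`
  set S : Set (X → X) := E X T ∩ {p | Eqv F (p x) x} with hS
  have hScl : IsClosed {p : X → X | Eqv F (p x) x} := by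
    have : {p : X → X | Eqv F (p x) x} = ⋂ g ∈ F, {p : X → X | g (p x) = g x} := by
      ext p
      simp only [Eqv, Set.mem_ofPred_eq, mem_iInter]
    rw [this]
    refine isClosed_biInter fun g _ => ?_
    exact isClosed_eq (g.continuous.comp (continuous_apply x)) continuous_const
  have hSc : IsCompact S := isCompact_E.inter_right hScl
  have hcomp : ∀ a ∈ S, ∀ b ∈ S, a ∘ b ∈ S := by
    rintro a ⟨ha, hax⟩ b ⟨hb, hbx⟩
    refine ⟨comp_mem ha hb, ?_⟩
    have h1 : Eqv F (a (b x)) (a x) := Eqv.app hF hbx ha
    intro g hg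
    exact (h1 g hg).trans (hax g hg)
  have hpS : p ∈ S := ⟨hp, hpx⟩
  have hfix : ∀ u ∈ S, u ∘ u = u → u x = x := by
    intro u hu huu
    exact hd (u x) (apply_mem_closure hu.1 x) hu.2 (prox_of_idem hu.1 huu x)
  obtain ⟨u, ⟨q, hq, rfl⟩, huu⟩ := exists_idem ((fun r => r ∘ p) '' S)
    ⟨_, ⟨p, hpS, rfl⟩⟩ (hSc.image (continuous_comp_right p)) (by
      rintro _ ⟨a, ha, rfl⟩ _ ⟨b, hb, rfl⟩
      exact ⟨a ∘ p ∘ b, hcomp a ha _ (hcomp p hpS b hb), rfl⟩)
  simp only at huu
  have huS : q ∘ p ∈ S := hcomp q hq p hpS
  have hux : (q ∘ p) x = x := hfix _ huS huu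
  have hq1 : (q ∘ p) ∘ q ∈ S := hcomp _ huS q hq
  have hv : p ∘ ((q ∘ p) ∘ q) ∈ S := hcomp p hpS _ hq1
  have hpt : ∀ y, q (p (q (p y))) = q (p y) := fun y => congrFun huu y
  have hvv : (p ∘ ((q ∘ p) ∘ q)) ∘ (p ∘ ((q ∘ p) ∘ q)) = p ∘ ((q ∘ p) ∘ q) := by
    funext y
    simp only [Function.comp_apply]
    rw [hpt, hpt]
  refine ⟨(q ∘ p) ∘ q, hq1.1, ?_, hfix _ hv hvv⟩
  have h1 : ((q ∘ p) ∘ q) (p x) = (q ∘ p) ((q ∘ p) x) := rfl
  rw [h1, hux, hux]

end Helper77.Distal
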