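import Pool.Agent.Helper77.Distal.Ellis

/-! Lifting of convergent sequences at a (relatively) distal point. -/

namespace Helper77.Distal

open Topology Filter Set

variable {X : Type*} [TopologicalSpace X] [CompactSpace X] [T2Space X]
variable {T : Type*} [Monoid T] [MulAction T X] [ContinuousConstSMul T X]

/-- The quotient map by a family of functions is open at a relatively distal point. -/
theorem open_at {x : X} {F : Set C(X, ℝ)} (hF : Inv T F) (hd : RelDistal T F x)
    {w : ℕ → X} (hw : ∀ n, w n ∈ closure (MulAction.orbit T x))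
    (hlim : ∀ g ∈ F, Tendsto (fun n => g (w n)) atTop (𝓝 (g x)))
    {O : Set X} (hO : IsOpen O) (hxO : x ∈ O) :
    ∀ᶠ n in atTop, ∃ y ∈ O, y ∈ closure (MulAction.orbit T x) ∧ Eqv F y (w n) := by
  by_contra hcon
  rw [not_eventually] at hcon
  rw [frequently_iff_neBot] at hcon
  let U : Ultrafilter ℕ := @Ultrafilter.of _ _ hcon
  have hU : (U : Filter ℕ) ≤ atTop ⊓ 𝓟 {n | ¬ ∃ y ∈ O, y ∈ closure (MulAction.orbit T x) ∧
      Eqv F y (w n)} := @Ultrafilter.of_le _ _ hcon
  have hU1 : (U : Filter ℕ) ≤ atTop := hU.trans inf_le_left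
  have hU2 : ∀ᶠ n in (U : Filter ℕ), ¬ ∃ y ∈ O, y ∈ closure (MulAction.orbit T x) ∧
      Eqv F y (w n) := by
    have := hU.trans inf_le_right
    exact le_principal_iff.mp this
  choose p hp hpx using fun n => exists_of_mem_closure (hw n)
  obtain ⟨P, hP, hPlim⟩ := (isCompact_E (X := X) (T := T)).ultrafilter_le_nhds (U.map p) (by
    rw [le_principal_iff]
    exact Filter.Eventually.of_forall (f := (U : Filter ℕ)) (p := fun n => p n ∈ E X T) hp)
  have hPt : Tendsto p (U : Filter ℕ) (𝓝 P) := hPlim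
  have hev : ∀ y : X, Tendsto (fun n => p n y) (U : Filter ℕ) (𝓝 (P y)) := fun y =>
    ((continuous_apply y).tendsto P).comp hPt
  have hEq : Eqv F (P x) x := by
    intro g hg
    have h1 : Tendsto (fun n => g (w n)) (U : Filter ℕ) (𝓝 (g (P x))) := by
      have := (g.continuous.tendsto _).comp (hev x)
      refine this.congr fun n => ?_
      simp only [Function.comp_apply, hpx]
    exact tendsto_nhds_unique h1 ((hlim g hg).mono_left hU1)
  obtain ⟨q, hq, hq1, hq2⟩ := key hF hd hP hEq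
  have hqx : Eqv F x (q x) := by
    have := hEq.app hF hq
    rwa [hq1] at this
  have hin : ∀ᶠ n in (U : Filter ℕ), p n (q x) ∈ O := by
    have h := hev (q x)
    rw [hq2] at h
    exact h (hO.mem_nhds hxO)
  obtain ⟨n, hn1, hn2⟩ := (hin.and hU2).exists
  refine hn2 ⟨p n (q x), hn1, ?_, ?_⟩
  · exact apply_mem_closure (comp_mem (hp n) hq) x
  · have h1 : Eqv F (p n x) (p n (q x)) := hqx.app hF (hp n)
    intro g hg
    rw [← h1 g hg, hpx]

/-- Diagonal selection. -/
theorem diag {l : Filter X} [l.IsCountablyGenerated] {P : ℕ → X → Prop}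
    (h0 : ∀ n, ∃ y, P n y) (h : ∀ O ∈ l, ∀ᶠ n in atTop, ∃ y ∈ O, P n y) :
    ∃ v : ℕ → X, (∀ n, P n (v n)) ∧ Tendsto v atTop l := by
  classical
  obtain ⟨B, hB⟩ := l.exists_antitone_basis
  -- `Q n k`: the set `B k` has a point with `P n`
  have hch : ∀ n, ∃ y, P n y ∧ ∀ k ≤ n, (∃ y' ∈ B k, P n y') → y ∈ B k := by
    intro n
    by_cases hex : ∃ k ≤ n, ∃ y' ∈ B k, P n y'
    · set Q : ℕ → Prop := fun k => ∃ y' ∈ B k, P n y' with hQ
      have hspec : Q (Nat.findGreatest Q n) := by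
        obtain ⟨k, hk, hQk⟩ := hex
        exact Nat.findGreatest_spec hk hQk
      obtain ⟨y, hy, hPy⟩ := hspec
      refine ⟨y, hPy, fun k hk hQk => ?_⟩
      exact hB.antitone (Nat.le_findGreatest hk hQk) hy
    · obtain ⟨y, hy⟩ := h0 n
      exact ⟨y, hy, fun k hk hQk => absurd ⟨k, hk, hQk⟩ hex⟩
  choose v hv1 hv2 using hch
  refine ⟨v, hv1, ?_⟩
  rw [hB.toHasBasis.tendsto_right_iff]
  intro k _
  filter_upwards [h (B k) (hB.mem k), eventually_ge_atTop k] with n hn hkn
  exact hv2 n k hkn hn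

/-- One more function (with its translates) can be made to converge. -/
theorem lift_one [Countable T] {x : X} {F : Set C(X, ℝ)} (hF : Inv T F)
    (hd : RelDistal T F x) {w : ℕ → X} (hw : ∀ n, w n ∈ closure (MulAction.orbit T x))
    (hlim : ∀ g ∈ F, Tendsto (fun n => g (w n)) atTop (𝓝 (g x))) (g : C(X, ℝ)) :
    ∃ v : ℕ → X, (∀ n, v n ∈ closure (MulAction.orbit T x)) ∧ (∀ n, Eqv F (v n) (w n)) ∧
      ∀ t : T, Tendsto (fun n => tr t g (v n)) atTop (𝓝 (tr t g x)) := by
  set G : X → (T → ℝ) := fun y t => tr t g y with hG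
  have hGc : Continuous G := continuous_pi fun t => (tr t g).continuous
  obtain ⟨v, hv1, hv2⟩ := diag (X := X) (l := comap G (𝓝 (G x)))
    (P := fun n y => y ∈ closure (MulAction.orbit T x) ∧ Eqv F y (w n))
    (fun n => ⟨w n, hw n, fun _ _ => rfl⟩) (by
      rintro O ⟨V, hV, hVO⟩
      obtain ⟨V', hV', hVo, hxV⟩ := mem_nhds_iff.mp hV
      filter_upwards [open_at hF hd hw hlim (hVo.preimage hGc) hxV] with n hn
      obtain ⟨y, hy1, hy2, hy3⟩ := hn
      exact ⟨y, hVO (hV' hy1), hy2, hy3⟩)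
  refine ⟨v, fun n => (hv1 n).1, fun n => (hv1 n).2, fun t => ?_⟩
  have h1 : Tendsto (fun n => G (v n)) atTop (𝓝 (G x)) := tendsto_comap_iff.mp hv2
  exact (tendsto_pi_nhds.mp h1) t

end Helper77.Distal
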