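import Pool.Agent.Helper77.Distal.Lift

/-! Zorn's lemma: a sequence that converges modulo an invariant set of functions lifts. -/

namespace Helper77.Distal

open Topology Filter Set

variable {X : Type*} [TopologicalSpace X] [CompactSpace X] [T2Space X]
variable {T : Type*} [Monoid T] [MulAction T X] [ContinuousConstSMul T X]

/-- A stage: an invariant set of functions with a sequence that converges for it. -/
structure Stage (T : Type*) [Monoid T] [MulAction T X] [ContinuousConstSMul T X] (x : X)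
    (F0 : Set C(X, ℝ)) (w0 : ℕ → X) where
  F : Set C(X, ℝ)
  w : ℕ → X
  inv : Inv T F
  mem : ∀ n, w n ∈ closure (MulAction.orbit T x)
  lim : ∀ g ∈ F, Tendsto (fun n => g (w n)) atTop (𝓝 (g x))
  sub : F0 ⊆ F
  base : ∀ n, Eqv F0 (w n) (w0 n)

instance (x : X) (F0 : Set C(X, ℝ)) (w0 : ℕ → X) : Preorder (Stage T x F0 w0) where
  le A B := A.F ⊆ B.F ∧ ∀ n, Eqv A.F (B.w n) (A.w n)
  le_refl A := ⟨subset_rfl, fun _ _ _ => rfl⟩
  le_trans A B C h1 h2 := ⟨h1.1.trans h2.1, fun n g hg => by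
    rw [h2.2 n g (h1.1 hg), h1.2 n g hg]⟩

theorem chain_bdd {x : X} {F0 : Set C(X, ℝ)} {w0 : ℕ → X} (c : Set (Stage T x F0 w0))
    (hc : IsChain (· ≤ ·) c) (hne : c.Nonempty) : BddAbove c := by
  have hlim : ∀ n, ∃ y, y ∈ closure (MulAction.orbit T x) ∧ ∀ A ∈ c, Eqv A.F y (A.w n) := by
    intro n
    set K : c → Set X := fun A => {y | y ∈ closure (MulAction.orbit T x) ∧
      Eqv A.1.F y (A.1.w n)} with hK
    have hcl : ∀ A, IsClosed (K A) := by
      intro A
      have : K A = closure (MulAction.orbit T x) ∩ ⋂ g ∈ A.1.F, {y | g y = g (A.1.w n)} := by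
        ext y
        simp only [hK, Eqv, Set.mem_ofPred_eq, mem_inter_iff, mem_iInter]
      rw [this]
      refine isClosed_closure.inter (isClosed_biInter fun g _ => ?_)
      exact isClosed_eq g.continuous continuous_const
    have hne' : Nonempty c := hne.to_subtype
    obtain ⟨y, hy⟩ := IsCompact.nonempty_iInter_of_directed_nonempty_isCompact_isClosed K (by
      rintro ⟨A, hA⟩ ⟨B, hB⟩
      rcases hc.total hA hB with h | h
      · refine ⟨⟨B, hB⟩, ?_, subset_rfl⟩
        rintro y ⟨hy1, hy2⟩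
        exact ⟨hy1, fun g hg => (hy2 g (h.1 hg)).trans (h.2 n g hg)⟩
      · refine ⟨⟨A, hA⟩, subset_rfl, ?_⟩
        rintro y ⟨hy1, hy2⟩
        exact ⟨hy1, fun g hg => (hy2 g (h.1 hg)).trans (h.2 n g hg)⟩)
      (fun A => ⟨A.1.w n, A.1.mem n, fun _ _ => rfl⟩)
      (fun A => (hcl A).isCompact) hcl
    rw [mem_iInter] at hy
    obtain ⟨A0, hA0⟩ := hne
    exact ⟨y, (hy ⟨A0, hA0⟩).1, fun A hA => (hy ⟨A, hA⟩).2⟩
  choose v hv1 hv2 using hlim
  obtain ⟨A0, hA0⟩ := hne
  refine ⟨⟨⋃ A ∈ c, A.F, v, ?_, hv1, ?_, ?_, ?_⟩, ?_⟩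
  · intro g hg t
    obtain ⟨A, hA, hgA⟩ := mem_iUnion₂.mp hg
    exact mem_iUnion₂.mpr ⟨A, hA, A.inv g hgA t⟩
  · intro g hg
    obtain ⟨A, hA, hgA⟩ := mem_iUnion₂.mp hg
    refine (A.lim g hgA).congr fun n => ?_
    exact (hv2 n A hA g hgA).symm
  · intro g hg
    exact mem_iUnion₂.mpr ⟨A0, hA0, A0.sub hg⟩
  · intro n g hg
    exact (hv2 n A0 hA0 g (A0.sub hg)).trans (A0.base n g hg)
  · intro A hA
    exact ⟨fun g hg => mem_iUnion₂.mpr ⟨A, hA, hg⟩, fun n g hg => hv2 n A hA g hg⟩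

/-- A sequence that converges to `x` modulo the invariant set `F0` lifts to a convergent
sequence, if `x` is distal relative to `F0`. -/
theorem lift_all [Countable T] {x : X} {F0 : Set C(X, ℝ)} (hF : Inv T F0)
    (hd : RelDistal T F0 x)
    {w0 : ℕ → X} (hw : ∀ n, w0 n ∈ closure (MulAction.orbit T x))
    (hlim : ∀ g ∈ F0, Tendsto (fun n => g (w0 n)) atTop (𝓝 (g x))) :
    ∃ v : ℕ → X, (∀ n, v n ∈ closure (MulAction.orbit T x)) ∧ (∀ n, Eqv F0 (v n) (w0 n)) ∧
      Tendsto v atTop (𝓝 x) := by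
  have : Nonempty (Stage T x F0 w0) :=
    ⟨⟨F0, w0, hF, hw, hlim, subset_rfl, fun _ _ _ => rfl⟩⟩
  obtain ⟨A, hA⟩ := zorn_le_nonempty (α := Stage T x F0 w0) chain_bdd
  have hall : ∀ g : C(X, ℝ), g ∈ A.F := by
    intro g
    obtain ⟨v, hv1, hv2, hv3⟩ := lift_one A.inv (hd.mono A.sub) A.mem A.lim g
    let B : Stage T x F0 w0 :=
      { F := A.F ∪ range fun t : T => tr t g
        w := v
        inv := by
          rintro h (hh | ⟨s, rfl⟩) t
          · exact Or.inl (A.inv h hh t)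
          · refine Or.inr ⟨s * t, ?_⟩
            simp only
            rw [tr_tr]
        mem := hv1
        lim := by
          rintro h (hh | ⟨s, rfl⟩)
          · refine (A.lim h hh).congr fun n => ?_
            exact (hv2 n h hh).symm
          · exact hv3 s
        sub := A.sub.trans subset_union_left
        base := fun n h hh => (hv2 n h (A.sub hh)).trans (A.base n h hh) }
    have hAB : A ≤ B := ⟨subset_union_left, hv2⟩
    have hBA : B ≤ A := hA hAB
    refine hBA.1 (Or.inr ⟨1, ?_⟩)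
    ext y
    simp only [tr_apply, one_smul]
  refine ⟨A.w, A.mem, A.base, ?_⟩
  rw [tendsto_def]
  intro V hV
  obtain ⟨O, hOV, hO, hxO⟩ := mem_nhds_iff.mp hV
  obtain ⟨g, hg0, hg1, -⟩ := exists_continuous_zero_one_of_isClosed (isClosed_singleton (x := x))
    hO.isClosed_compl (by
      rw [disjoint_left]
      rintro y rfl hy
      exact hy hxO)
  have h := A.lim g (hall g)
  have hgx : g x = 0 := hg0 rfl
  rw [hgx] at h
  have h' : ∀ᶠ n in atTop, g (A.w n) < 1 := h.eventually (gt_mem_nhds one_pos)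
  filter_upwards [h'] with n hn
  refine hOV ?_
  by_contra hcon
  have : g (A.w n) = 1 := hg1 hcon
  rw [this] at hn
  exact lt_irrefl _ hn

end Helper77.Distal
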